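import Pool.Agent.FTU.Stmts

/-! # FTU: BSU, the energy of the derivatives of the phase at fixed configuration -/

set_option autoImplicit false

open MeasureTheory Complex MvPolynomial

namespace Pool.Agent.FTU.H12

open Pool.Agent.Helper49_Pauli
open Pool.Agent.MBX

variable {ι : Type} [Fintype ι] (S : Sys ι)

/-- the constant factor of a jet of a mode -/
noncomputable def kap (i : ι) (c : Fin 3) (p q r : ℕ) : ℝ :=
  S.e i c * S.k i 0 ^ p * S.k i 1 ^ q * S.k i 2 ^ r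

theorem abs_kap {K ell : ℝ} (h : S.Good K ell) (i : ι) (c : Fin 3) (p q r : ℕ) :
    |kap S i c p q r| ≤ 1 := by
  unfold kap
  rw [abs_mul, abs_mul, abs_mul, abs_pow, abs_pow, abs_pow]
  have h0 := pow_le_one₀ (n := p) (abs_nonneg _) (h.k1 i 0)
  have h1 := pow_le_one₀ (n := q) (abs_nonneg _) (h.k1 i 1)
  have h2 := pow_le_one₀ (n := r) (abs_nonneg _) (h.k1 i 2)
  have h3 := mul_le_one₀ (h.e1 i c) (by positivity) h0
  have h4 := mul_le_one₀ h3 (by positivity) h1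
  exact mul_le_one₀ h4 (by positivity) h2

theorem jm_eq (i : ι) (c : Fin 3) (p q r : ℕ) (z : ℝ) :
    S.jm i c p q r z = S.c i * kap S i c p q r *
      Real.cos (S.k i 2 * z - (S.t i - ((p + q + r : ℕ) : ℝ) * (Real.pi / 2))) := by
  unfold Sys.jm kap
  rw [show S.k i 2 * z - (S.t i - ((p + q + r : ℕ) : ℝ) * (Real.pi / 2)) =
    S.k i 2 * z - S.t i + ((p + q + r : ℕ) : ℝ) * (Real.pi / 2) by ring]
  ring

theorem continuous_jv (i : ι) (v : Var) : Continuous (S.jv i v) := by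
  cases v with
  | jet c p q r =>
    show Continuous fun z => S.jm i c p q r z
    simp only [jm_eq]
    fun_prop
  | eta => exact continuous_const
  | z => exact continuous_const
  | zb => exact continuous_const

theorem abs_jv_le {K ell : ℝ} (h : S.Good K ell) (i : ι) (v : Var) (z : ℝ) :
    |S.jv i v z| ≤ |S.c i| := by
  cases v with
  | jet c p q r =>
    show |S.jm i c p q r z| ≤ _
    rw [jm_eq, abs_mul, abs_mul]
    calc |S.c i| * |kap S i c p q r| * |Real.cos _| ≤ |S.c i| * 1 * 1 := by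
          gcongr
          · exact abs_kap S h i c p q r
          · exact Real.abs_cos_le_one _
      _ = |S.c i| := by ring
  | eta => show |(0 : ℝ)| ≤ _; rw [abs_zero]; exact abs_nonneg _
  | z => show |(0 : ℝ)| ≤ _; rw [abs_zero]; exact abs_nonneg _
  | zb => show |(0 : ℝ)| ≤ _; rw [abs_zero]; exact abs_nonneg _

/-- the integral of a cosine against a real function is bounded by the exponential integral -/
theorem abs_int_cos (g : ℝ → ℝ) (hg : Continuous g) (k tau a b : ℝ) :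
    |∫ s in a..b, Real.cos (k * s - tau) * g s| ≤
      ‖∫ s in a..b, (g s : ℂ) * cexp (I * ((k * s : ℝ) : ℂ))‖ := by
  have h1 : ∫ s in a..b, Real.cos (k * s - tau) * g s =
      (cexp (-(I * (tau : ℂ))) * ∫ s in a..b, (g s : ℂ) * cexp (I * ((k * s : ℝ) : ℂ))).re := by
    rw [← intervalIntegral.integral_const_mul]
    have h2 : (∫ s in a..b, cexp (-(I * (tau : ℂ))) * ((g s : ℂ) * cexp (I * ((k * s : ℝ) : ℂ)))).re =
        ∫ s in a..b, (cexp (-(I * (tau : ℂ))) * ((g s : ℂ) * cexp (I * ((k * s : ℝ) : ℂ)))).re := by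
      have hi : IntervalIntegrable
          (fun s : ℝ => cexp (-(I * (tau : ℂ))) * ((g s : ℂ) * cexp (I * ((k * s : ℝ) : ℂ)))) volume a b := by
        apply Continuous.intervalIntegrable
        fun_prop
      exact (Complex.reCLM.intervalIntegral_comp_comm hi).symm
    rw [h2]
    congr 1
    ext s
    rw [show cexp (-(I * (tau : ℂ))) * ((g s : ℂ) * cexp (I * ((k * s : ℝ) : ℂ))) =
      (g s : ℂ) * (cexp (-(I * (tau : ℂ))) * cexp (I * ((k * s : ℝ) : ℂ))) by ring, ← Complex.exp_add,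
      show -(I * (tau : ℂ)) + I * ((k * s : ℝ) : ℂ) = ((k * s - tau : ℝ) : ℂ) * I by push_cast; ring,
      Complex.re_ofReal_mul, Complex.exp_ofReal_mul_I_re]
    ring
  rw [h1]
  refine (Complex.abs_re_le_norm _).trans ?_
  rw [norm_mul, show -(I * (tau : ℂ)) = ((-tau : ℝ) : ℂ) * I by push_cast; ring,
    Complex.norm_exp_ofReal_mul_I, one_mul]

theorem int_jv_sq {K ell : ℝ} (h : S.Good K ell) (i : ι) (v : Var) (g : ℝ → ℝ) (hg : Continuous g)
    (a b : ℝ) :
    (∫ s in a..b, S.jv i v s * g s) ^ 2 ≤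
      S.c i ^ 2 * ‖∫ s in a..b, (g s : ℂ) * cexp (I * ((S.k i 2 * s : ℝ) : ℂ))‖ ^ 2 := by
  have h0 : ∀ f : ℝ → ℝ, (∀ s, f s = 0) → (∫ s in a..b, f s * g s) ^ 2 = 0 := by
    intro f hf
    simp [hf]
  cases v with
  | jet c p q r =>
    have h1 : ∫ s in a..b, S.jv i (Var.jet c p q r) s * g s = S.c i * kap S i c p q r *
        ∫ s in a..b, Real.cos (S.k i 2 * s - (S.t i - ((p + q + r : ℕ) : ℝ) * (Real.pi / 2))) * g s := by
      rw [← intervalIntegral.integral_const_mul]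
      congr 1
      ext s
      show S.jm i c p q r s * g s = _
      rw [jm_eq]
      ring
    rw [h1, mul_pow, mul_pow]
    have h2 : kap S i c p q r ^ 2 ≤ 1 := by
      rw [← sq_abs]
      exact pow_le_one₀ (abs_nonneg _) (abs_kap S h i c p q r)
    have h3 := abs_int_cos g hg (S.k i 2) (S.t i - ((p + q + r : ℕ) : ℝ) * (Real.pi / 2)) a b
    have h4 : (∫ s in a..b, Real.cos (S.k i 2 * s - (S.t i - ((p + q + r : ℕ) : ℝ) * (Real.pi / 2))) * g s) ^ 2 ≤
        ‖∫ s in a..b, (g s : ℂ) * cexp (I * ((S.k i 2 * s : ℝ) : ℂ))‖ ^ 2 := by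
      rw [← sq_abs]
      gcongr
    calc _ ≤ S.c i ^ 2 * 1 * ‖∫ s in a..b, (g s : ℂ) * cexp (I * ((S.k i 2 * s : ℝ) : ℂ))‖ ^ 2 := by
          gcongr
      _ = _ := by ring
  | eta => rw [h0 (S.jv i Var.eta) fun s => rfl]; positivity
  | z => rw [h0 (S.jv i Var.z) fun s => rfl]; positivity
  | zb => rw [h0 (S.jv i Var.zb) fun s => rfl]; positivity

theorem bes' {K ell : ℝ} (h : S.Good K ell) (g : ℝ → ℝ) (hg : Continuous g) (z : ℝ) (hz : |z| ≤ ell) :
    ∑ i, S.w i * S.c i ^ 2 * ‖∫ s in (0 : ℝ)..z, (g s : ℂ) * cexp (I * ((S.k i 2 * s : ℝ) : ℂ))‖ ^ 2 ≤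
      K * |∫ s in (0 : ℝ)..z, g s ^ 2| := by
  rcases le_total 0 z with hz0 | hz0
  · have h1 := h.bes g 0 z hg hz0 (by rw [abs_of_nonneg hz0] at hz; linarith)
    rwa [abs_of_nonneg]
    exact intervalIntegral.integral_nonneg hz0 fun s _ => sq_nonneg _
  · have h1 := h.bes g z 0 hg hz0 (by rw [abs_of_nonpos hz0] at hz; linarith)
    rw [intervalIntegral.integral_symm z 0, abs_neg, abs_of_nonneg]
    · refine le_trans (le_of_eq ?_) h1
      refine Finset.sum_congr rfl fun i _ => ?_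
      rw [intervalIntegral.integral_symm z 0, norm_neg]
    · exact intervalIntegral.integral_nonneg hz0 fun s _ => sq_nonneg _

theorem bsu : BsuStmt := by
  intro ι _ S K ell h T
  refine ⟨fun g z hg hz => ?_, fun a z => ?_⟩
  · have h1 : ∀ i, S.w i * (∫ s in (0 : ℝ)..z, ∑ v ∈ T, S.jv i v s * g v s) ^ 2 ≤
        (T.card : ℝ) * ∑ v ∈ T, S.w i * S.c i ^ 2 *
          ‖∫ s in (0 : ℝ)..z, (g v s : ℂ) * cexp (I * ((S.k i 2 * s : ℝ) : ℂ))‖ ^ 2 := by
      intro i
      have h2 : ∫ s in (0 : ℝ)..z, ∑ v ∈ T, S.jv i v s * g v s =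
          ∑ v ∈ T, ∫ s in (0 : ℝ)..z, S.jv i v s * g v s := by
        refine intervalIntegral.integral_finsetSum fun v _ => ?_
        exact ((continuous_jv S i v).mul (hg v)).intervalIntegrable _ _
      rw [h2]
      have h3 := sq_sum_le_card_mul_sum_sq (s := T) (f := fun v => ∫ s in (0 : ℝ)..z, S.jv i v s * g v s)
      calc _ ≤ S.w i * ((T.card : ℝ) * ∑ v ∈ T, (∫ s in (0 : ℝ)..z, S.jv i v s * g v s) ^ 2) :=
            mul_le_mul_of_nonneg_left h3 (h.w0 i).le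
        _ ≤ S.w i * ((T.card : ℝ) * ∑ v ∈ T, S.c i ^ 2 *
            ‖∫ s in (0 : ℝ)..z, (g v s : ℂ) * cexp (I * ((S.k i 2 * s : ℝ) : ℂ))‖ ^ 2) := by
            have h4 := (h.w0 i).le
            gcongr with v hv
            exact int_jv_sq S h i v (g v) (hg v) 0 z
        _ = _ := by
            rw [mul_left_comm, Finset.mul_sum]
            congr 1
            exact Finset.sum_congr rfl fun v _ => by ring
    calc _ ≤ ∑ i, (T.card : ℝ) * ∑ v ∈ T, S.w i * S.c i ^ 2 *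
          ‖∫ s in (0 : ℝ)..z, (g v s : ℂ) * cexp (I * ((S.k i 2 * s : ℝ) : ℂ))‖ ^ 2 :=
          Finset.sum_le_sum fun i _ => h1 i
      _ = (T.card : ℝ) * ∑ v ∈ T, ∑ i, S.w i * S.c i ^ 2 *
          ‖∫ s in (0 : ℝ)..z, (g v s : ℂ) * cexp (I * ((S.k i 2 * s : ℝ) : ℂ))‖ ^ 2 := by
          rw [← Finset.mul_sum, Finset.sum_comm]
      _ ≤ (T.card : ℝ) * ∑ v ∈ T, K * |∫ s in (0 : ℝ)..z, g v s ^ 2| := by
          gcongr with v hv
          exact bes' S h (g v) (hg v) z hz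
      _ = _ := by
          rw [← Finset.mul_sum]
          ring
  · have hK : ∑ i, S.w i * S.c i ^ 2 ≤ K := by
      refine le_trans (Finset.sum_le_sum fun i _ => ?_) h.cw
      rw [le_div_iff₀ (h.w0 i)]
      have h1 := h.w0 i
      have h2 := h.w1 i
      have h3 : S.w i * S.w i ≤ 1 := by nlinarith
      calc S.w i * S.c i ^ 2 * S.w i = (S.w i * S.w i) * S.c i ^ 2 := by ring
        _ ≤ 1 * S.c i ^ 2 := by gcongr
        _ = _ := one_mul _
    have h1 : ∀ i, S.w i * ‖∑ v ∈ T, (S.jv i v z : ℂ) * a v‖ ^ 2 ≤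
        (S.w i * S.c i ^ 2) * ((T.card : ℝ) * ∑ v ∈ T, ‖a v‖ ^ 2) := by
      intro i
      have h2 : ‖∑ v ∈ T, (S.jv i v z : ℂ) * a v‖ ≤ ∑ v ∈ T, |S.c i| * ‖a v‖ := by
        refine (norm_sum_le _ _).trans (Finset.sum_le_sum fun v _ => ?_)
        rw [norm_mul, Complex.norm_real, Real.norm_eq_abs]
        exact mul_le_mul_of_nonneg_right (abs_jv_le S h i v z) (norm_nonneg _)
      have h3 := sq_sum_le_card_mul_sum_sq (s := T) (f := fun v => ‖a v‖)
      have h4 : ‖∑ v ∈ T, (S.jv i v z : ℂ) * a v‖ ^ 2 ≤ S.c i ^ 2 * ((T.card : ℝ) * ∑ v ∈ T, ‖a v‖ ^ 2) := by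
        calc _ ≤ (∑ v ∈ T, |S.c i| * ‖a v‖) ^ 2 := by gcongr
          _ = S.c i ^ 2 * (∑ v ∈ T, ‖a v‖) ^ 2 := by
              rw [← Finset.mul_sum, mul_pow, sq_abs]
          _ ≤ _ := by gcongr
      calc _ ≤ S.w i * (S.c i ^ 2 * ((T.card : ℝ) * ∑ v ∈ T, ‖a v‖ ^ 2)) :=
            mul_le_mul_of_nonneg_left h4 (h.w0 i).le
        _ = _ := by ring
    calc _ ≤ ∑ i, (S.w i * S.c i ^ 2) * ((T.card : ℝ) * ∑ v ∈ T, ‖a v‖ ^ 2) :=
          Finset.sum_le_sum fun i _ => h1 i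
      _ = (∑ i, S.w i * S.c i ^ 2) * ((T.card : ℝ) * ∑ v ∈ T, ‖a v‖ ^ 2) := by rw [Finset.sum_mul]
      _ ≤ K * ((T.card : ℝ) * ∑ v ∈ T, ‖a v‖ ^ 2) := by
          refine mul_le_mul_of_nonneg_right hK (by positivity)
      _ = _ := by ring

end Pool.Agent.FTU.H12
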