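import Pool.Agent.FTU.Stmts

/-! # FTU: DTD, the derivatives of a component of the trial function -/

set_option autoImplicit false

open MeasureTheory Complex MvPolynomial

namespace Pool.Agent.FTU.H12

open Pool.Agent.Helper49_Pauli
open Pool.Agent.MBX

theorem contDiff_of_deriv {f f' : ℝ → ℝ} (h : ∀ z, HasDerivAt f (f' z) z)
    (h' : ContDiff ℝ (⊤ : ℕ∞) f') : ContDiff ℝ (⊤ : ℕ∞) f := by
  rw [contDiff_infty_iff_deriv]
  refine ⟨fun z => (h z).differentiableAt, ?_⟩
  have h1 : deriv f = f' := funext fun z => (h z).deriv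
  rw [h1]
  exact h'

theorem hline_coord (x v : X3) (k : Fin 3) : HasDerivAt (fun t : ℝ => (x + t • v) k) (v k) 0 := by
  have h := ((hasDerivAt_id (0 : ℝ)).mul_const (v k)).const_add (x k)
  simpa using h

theorem hline_gs (et : ℝ) (x v : X3) : HasDerivAt (fun t : ℝ => gs et (x + t • v))
    (gs et x * (-((2 * x 0 * v 0 + 2 * x 1 * v 1) / (4 * et ^ 4)))) 0 := by
  have h0 := (hline_coord x v 0).pow 2
  have h1 := (hline_coord x v 1).pow 2
  have h := (((h0.add h1).div_const (4 * et ^ 4)).neg).exp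
  unfold gs
  convert h using 1
  all_goals simp [Pi.neg_apply, Pi.add_apply, Pi.pow_apply]

theorem dtd (hR : EvrStmt) (hX : EvxStmt) (hT : EvtStmt) : DtdStmt := by
  intro ι _ _ S et eps P ch y x het heps hcj hch T hTdef
  obtain ⟨-, hR2, hR3, -⟩ := hR
  obtain ⟨hc, hd, -⟩ := hT ι S et eps y
  -- the real part of eps on the axis
  have hval : ∀ x : X3, S.pol et eps y x = (((ev et (S.jt et y (x 2)) 0 eps).re : ℝ) : ℂ) := fun x =>
    hR3 _ _ _ _ heps hcj
  have hsm : ContDiff ℝ (⊤ : ℕ∞) fun z : ℝ => (ev et (S.jt et y z) 0 eps).re := by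
    have h1 : (fun z : ℝ => (ev et (S.jt et y z) 0 eps).re) = fun z : ℝ => (S.pol et eps y ![0, 0, z]).re := by
      ext z
      rw [hval]
      rfl
    rw [h1]
    have h2 : ContDiff ℝ (⊤ : ℕ∞) fun z : ℝ => (![0, 0, z] : X3) := by
      rw [contDiff_pi]
      intro k
      fin_cases k
      · exact contDiff_const
      · exact contDiff_const
      · exact contDiff_id
    exact Complex.reCLM.contDiff.comp (((hX ι S et het eps y).1).comp h2)
  have hTh : ContDiff ℝ (⊤ : ℕ∞) (S.Th et eps y) :=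
    contDiff_of_deriv hd (contDiff_const.add hsm)
  have hgs : ContDiff ℝ (⊤ : ℕ∞) (gs et) := by
    unfold gs
    fun_prop
  have hpol := hX ι S et het P y
  have hA : ContDiff ℝ (⊤ : ℕ∞) fun x : X3 => cexp (-(I * (S.Th et eps y (x 2) : ℂ))) := by
    refine ContDiff.cexp ?_
    refine (contDiff_const.mul ?_).neg
    exact Complex.ofRealCLM.contDiff.comp (hTh.comp (contDiff_apply ℝ ℝ (2 : Fin 3)))
  have hB : ContDiff ℝ (⊤ : ℕ∞) fun x : X3 => ((ch x * gs et x : ℝ) : ℂ) :=
    Complex.ofRealCLM.contDiff.comp (hch.mul hgs)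
  have hsmooth : ContDiff ℝ (⊤ : ℕ∞) T := by
    rw [hTdef]
    exact (hA.mul hB).mul hpol.1
  -- the derivative along a line
  have key : ∀ v : X3, fderiv ℝ T x v = cexp (-(I * (S.Th et eps y (x 2) : ℂ))) * ((gs et x : ℝ) : ℂ) *
      ((ch x : ℂ) * (fderiv ℝ (S.pol et P y) x v -
        I * (((1 / et : ℝ) : ℂ) + S.pol et eps y x) * (v 2 : ℂ) * S.pol et P y x -
        (((2 * x 0 * v 0 + 2 * x 1 * v 1) / (4 * et ^ 4) : ℝ) : ℂ) * S.pol et P y x) +
        ((fderiv ℝ ch x v : ℝ) : ℂ) * S.pol et P y x) := by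
    intro v
    have hx0 : x + (0 : ℝ) • v = x := by simp
    have e1 : HasDerivAt (fun t : ℝ => cexp (-(I * (S.Th et eps y ((x + t • v) 2) : ℂ))))
        (cexp (-(I * (S.Th et eps y (x 2) : ℂ))) *
          (-(I * (((1 / et + (ev et (S.jt et y (x 2)) 0 eps).re) * v 2 : ℝ) : ℂ)))) 0 := by
      have h1 : HasDerivAt (fun t : ℝ => S.Th et eps y ((x + t • v) 2))
          ((1 / et + (ev et (S.jt et y (x 2)) 0 eps).re) * v 2) 0 := by
        have h2 := hd ((x + (0 : ℝ) • v) 2)
        have h3 := HasDerivAt.comp (0 : ℝ) h2 (hline_coord x v 2)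
        rw [hx0] at h3
        exact h3
      have h4 := ((h1.ofReal_comp).const_mul I).neg.cexp
      simp only [Pi.neg_apply, hx0] at h4
      exact h4
    have e2 : HasDerivAt (fun t : ℝ => ((ch (x + t • v) * gs et (x + t • v) : ℝ) : ℂ))
        (((fderiv ℝ ch x v * gs et x +
          ch x * (gs et x * (-((2 * x 0 * v 0 + 2 * x 1 * v 1) / (4 * et ^ 4)))) : ℝ)) : ℂ) 0 := by
      have h1 : HasDerivAt (fun t : ℝ => ch (x + t • v)) (fderiv ℝ ch x v) 0 :=
        ((hch.differentiable (by simp)) x).hasFDerivAt.hasLineDerivAt v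
      have h2 := (h1.mul (hline_gs et x v)).ofReal_comp
      rw [hx0] at h2
      exact h2
    have e3 : HasDerivAt (fun t : ℝ => S.pol et P y (x + t • v)) (fderiv ℝ (S.pol et P y) x v) 0 :=
      ((hpol.1.differentiable (by simp)) x).hasFDerivAt.hasLineDerivAt v
    have e4 : HasDerivAt (fun t : ℝ => T (x + t • v)) (fderiv ℝ T x v) 0 :=
      ((hsmooth.differentiable (by simp)) x).hasFDerivAt.hasLineDerivAt v
    have e5 := (e1.mul e2).mul e3
    have e6 : (fun t : ℝ => T (x + t • v)) = fun t : ℝ =>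
        cexp (-(I * (S.Th et eps y ((x + t • v) 2) : ℂ))) *
          ((ch (x + t • v) * gs et (x + t • v) : ℝ) : ℂ) * S.pol et P y (x + t • v) := by
      rw [hTdef]
    rw [e6] at e4
    rw [e4.unique e5]
    simp only [Pi.mul_apply, hx0]
    rw [hval]
    push_cast
    ring
  refine ⟨hsmooth, ?_, ?_, ?_⟩
  · rw [key, (hpol.2 x).1]
    unfold pd
    simp only [Pi.single_eq_same, ne_eq, Fin.reduceEq, not_false_eq_true, Pi.single_eq_of_ne]
    push_cast
    ring
  · rw [key, (hpol.2 x).2.1]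
    unfold pd
    simp only [Pi.single_eq_same, ne_eq, Fin.reduceEq, not_false_eq_true, Pi.single_eq_of_ne]
    push_cast
    ring
  · rw [key, (hpol.2 x).2.2]
    unfold pd
    simp only [Pi.single_eq_same, ne_eq, Fin.reduceEq, not_false_eq_true, Pi.single_eq_of_ne]
    push_cast
    ring

end Pool.Agent.FTU.H12
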